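import Mathlib
import Pool.Agent.Lib.helper26.Lamp

set_option autoImplicit false

namespace Pool.Agent.Results.MP_b01501_co.Counter

open scoped Pointwise

/-- K is nonempty and |hK Δ K| < ε |K| for all h in H -/
def Invariant {G : Type} [Group G] (H : Finset G) (ε : ℝ) (K : Finset G) : Prop :=
  K.Nonempty ∧
    ∀ h ∈ H, ((symmDiff ((fun k => h * k) '' (K : Set G)) (K : Set G)).ncard : ℝ) < ε * K.card

def Amenable (G : Type) [Group G] : Prop :=
  ∀ (H : Finset G) (ε : ℝ), 0 < ε → ∃ K : Finset G, Invariant H ε K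

/-- upper Banach density -/
noncomputable def dens {G : Type} [Group G] (A : Set G) : ℝ :=
  sSup {α : ℝ | ∀ (H : Finset G) (ε : ℝ), 0 < ε →
    ∃ K : Finset G, Invariant H ε K ∧ α * K.card ≤ ((A ∩ (K : Set G)).ncard : ℝ)}

def Thick {G : Type} [Group G] (A : Set G) : Prop :=
  ∀ H : Finset G, ∃ x : G, ∀ h ∈ H, h * x ∈ A

open Pool.Agent.Lib.helper26.Lamp

lemma inv_T {n : ℕ} {H : Finset W} (hH : ∀ g ∈ H, g ∈ S n) {ε : ℝ} (hε : 0 < ε) (x : W) :
    Invariant H ε (T n x) := by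
  refine ⟨T_ne n x, fun h hh => ?_⟩
  rw [T_inv x (hH h hh), symmDiff_self]
  have h1 : (0 : ℝ) < (T n x).card := by exact_mod_cast (T_ne n x).card_pos
  simpa using mul_pos hε h1

lemma le_one {C : Set W} {α : ℝ} (h : ∀ (H : Finset W) (ε : ℝ), 0 < ε →
    ∃ K : Finset W, Invariant H ε K ∧ α * K.card ≤ ((C ∩ (K : Set W)).ncard : ℝ)) : α ≤ 1 := by
  obtain ⟨K, hK, h2⟩ := h ∅ 1 one_pos
  have h1 : (0 : ℝ) < K.card := by exact_mod_cast hK.1.card_pos
  have h3 : (C ∩ (K : Set W)).ncard ≤ K.card := by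
    rw [← Set.ncard_coe_finset]
    exact Set.ncard_le_ncard Set.inter_subset_right K.finite_toSet
  have h4 : ((C ∩ (K : Set W)).ncard : ℝ) ≤ K.card := by exact_mod_cast h3
  nlinarith

theorem result : ∃ (G : Type) (_ : Group G), Countable G ∧ Amenable G ∧
    ∃ A B : Set G, 1 / 2 ≤ dens A ∧ dens B = 1 ∧
      ∀ F : Finset G, ¬ Thick ((F : Set G) * (A * B⁻¹)) := by
  refine ⟨W, inferInstance, inferInstance, ?_, A, B, ?_, ?_, ?_⟩
  · intro H ε hε
    obtain ⟨n, hn⟩ := exists_S_fin H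
    exact ⟨T n 1, inv_T hn hε 1⟩
  · refine le_csSup ⟨1, fun α hα => le_one hα⟩ ?_
    intro H ε hε
    obtain ⟨n, hn⟩ := exists_S_fin H
    exact ⟨_, inv_T hn hε _, T_A n⟩
  · have h1 : ∀ (H : Finset W) (ε : ℝ), 0 < ε → ∃ K : Finset W, Invariant H ε K ∧
        (1 : ℝ) * K.card ≤ ((B ∩ (K : Set W)).ncard : ℝ) := by
      intro H ε hε
      obtain ⟨n, hn⟩ := exists_S_fin H
      refine ⟨_, inv_T hn hε (sh (2 * q n)), ?_⟩
      rw [T_B, Set.ncard_coe_finset, one_mul]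
    exact le_antisymm (csSup_le ⟨1, h1⟩ fun α hα => le_one hα)
      (le_csSup ⟨1, fun α hα => le_one hα⟩ h1)
  · intro F hF
    obtain ⟨H, hH⟩ := notThick F
    obtain ⟨x, hx⟩ := hF H
    obtain ⟨h, hh, h2⟩ := hH x
    obtain ⟨g, hg, c, ⟨a, ha, b, hb, rfl⟩, e⟩ := hx h hh
    have h3 := good ha (Set.mem_inv.1 hb)
    rw [inv_inv] at h3
    exact h2 g hg _ h3 e.symm

end Pool.Agent.Results.MP_b01501_co.Counter
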